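import Pool.Agent.W372.EG.Cst

/-!
Project EG (helper78), BTMX: the cells. Port of W125/EC/Cell.
-/

set_option autoImplicit false
set_option linter.all false

namespace Pool.Agent.W372.EG

open Finset Filter
open Pool.Agent.W78.GA
open Pool.Agent.W78.EG
open Pool.Agent.W125.EC (cel absS nc FFa mem_cel absS_nonneg sum_cel cellA0 lineSum cellA cellB cellC div_totient sqf_le tl tl_nonneg tail_small avg_le split)

variable {t c : ℤ} {f : ℕ} {χ : DirichletCharacter ℂ f}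

/-- periodic families of classes -/
structure Fam {t c : ℤ} {f : ℕ} (χ : DirichletCharacter ℂ f) (M : ℕ)
    (S : Qd t c → Qd t c → Prop) : Prop where
  M1 : 1 ≤ M
  cls : ∀ w, Per M (fun z => S z w)
  per : ∀ z w w' : Qd t c, (M : ℤ) ∣ w.re - w'.re → (M : ℤ) ∣ w.im - w'.im → (S z w ↔ S z w')
  xi0 : ∀ z w, S z w → 0 ≤ xi χ z w

/-- residues -/
noncomputable def RR (t c : ℤ) (M : ℕ) : Finset (Qd t c) :=
  ((range M) ×ˢ (range M)).image (fun p => (⟨(p.1 : ℤ), (p.2 : ℤ)⟩ : Qd t c))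

section
variable [Fact (t ^ 2 < 4 * c)]

lemma RR_spec {M : ℕ} {S : Qd t c → Qd t c → Prop} (hF : Fam χ M S) (w : Qd t c) :
    ∃ r ∈ RR t c M, ∀ z, (S z w ↔ S z r) := by
  have hM : (0 : ℤ) < M := by exact_mod_cast hF.M1
  have key : ∀ x : ℤ, ∃ k ∈ range M, (M : ℤ) ∣ x - (k : ℤ) := by
    intro x
    refine ⟨(x % M).toNat, ?_, ?_⟩
    · rw [mem_range]
      have h1 := Int.emod_lt_of_pos x hM
      have h2 := Int.emod_nonneg x hM.ne'
      omega
    · rw [Int.toNat_of_nonneg (Int.emod_nonneg x hM.ne')]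
      exact Int.dvd_self_sub_emod
  obtain ⟨k, hk, hk2⟩ := key w.re
  obtain ⟨l, hl, hl2⟩ := key w.im
  refine ⟨⟨(k : ℤ), (l : ℤ)⟩, ?_, fun z => hF.per z w _ hk2 hl2⟩
  unfold RR
  rw [mem_image]
  exact ⟨(k, l), mem_product.2 ⟨hk, hl⟩, rfl⟩

/-- boundaries of the shells -/
noncomputable def aI (s₁ s₂ : ℝ) (I i : ℕ) : ℝ := s₁ + i * (s₂ - s₁) / I

/-- the index of the cell -/
noncomputable def idx (s₁ s₂ X : ℝ) (I n : ℕ) (z : Qd t c) : ℕ × ℕ :=
  (⌈((nm z : ℝ) / X - s₁) * I / (s₂ - s₁)⌉₊ - 1, (aix n z).toNat)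

/-- the annulus -/
noncomputable def An (t c : ℤ) (s₁ s₂ X : ℝ) : Finset (Qd t c) := open scoped Classical in
  (pball t c X).filter (fun z => s₁ * X < (nm z : ℝ) ∧ (nm z : ℝ) ≤ s₂ * X)

lemma mem_An {s₁ s₂ X : ℝ} {z : Qd t c} : z ∈ An t c s₁ s₂ X ↔
    (prim z ∧ (nm z : ℝ) ≤ X) ∧ s₁ * X < (nm z : ℝ) ∧ (nm z : ℝ) ≤ s₂ * X := by
  unfold An
  rw [mem_filter, mem_pball hD01]

lemma shell_iff {s₁ s₂ X : ℝ} {I : ℕ} (hI : 1 ≤ I) (hX : 0 < X) (h12 : s₁ < s₂) {z : Qd t c}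
    (hz : s₁ * X < (nm z : ℝ)) (i : ℕ) :
    ⌈((nm z : ℝ) / X - s₁) * I / (s₂ - s₁)⌉₊ - 1 = i ↔
      aI s₁ s₂ I i * X < (nm z : ℝ) ∧ (nm z : ℝ) ≤ aI s₁ s₂ I (i + 1) * X := by
  have hI' : (0 : ℝ) < I := by exact_mod_cast hI
  have hs : 0 < s₂ - s₁ := by linarith
  set t : ℝ := ((nm z : ℝ) / X - s₁) * I / (s₂ - s₁) with ht
  have ht0 : 0 < t := by
    rw [ht]
    have : 0 < (nm z : ℝ) / X - s₁ := by
      rw [sub_pos, lt_div_iff₀ hX]; exact hz
    positivity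
  have hc : 0 < ⌈t⌉₊ := Nat.ceil_pos.2 ht0
  have h1 : ⌈t⌉₊ - 1 = i ↔ ⌈t⌉₊ = i + 1 := by omega
  rw [h1, Nat.ceil_eq_iff (by omega)]
  have hn : (nm z : ℝ) = (s₁ + t * (s₂ - s₁) / I) * X := by
    rw [ht]; field_simp; ring
  unfold aI
  rw [hn]
  have e1 : ∀ x y : ℝ, (s₁ + x * (s₂ - s₁) / I) * X < (s₁ + y * (s₂ - s₁) / I) * X ↔ x < y := by
    intro x y
    rw [mul_lt_mul_iff_left₀ hX, add_lt_add_iff_left, div_lt_div_iff_of_pos_right hI',
      mul_lt_mul_iff_left₀ hs]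
  have e2 : ∀ x y : ℝ, (s₁ + x * (s₂ - s₁) / I) * X ≤ (s₁ + y * (s₂ - s₁) / I) * X ↔ x ≤ y := by
    intro x y
    rw [← not_lt, e1, not_lt]
  rw [e1, e2]
  simp

lemma idx_mem {s₁ s₂ X : ℝ} {I n : ℕ} (hI : 1 ≤ I) (hX : 0 < X) (h12 : s₁ < s₂) {z : Qd t c}
    (hz : z ∈ An t c s₁ s₂ X) : idx s₁ s₂ X I n z ∈ range I ×ˢ range (n + 1) := by
  obtain ⟨h1, h2, h3⟩ := mem_An.1 hz
  have hI' : (0 : ℝ) < I := by exact_mod_cast hI
  have hs : 0 < s₂ - s₁ := by linarith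
  unfold idx
  rw [mem_product, mem_range]
  constructor
  · show ⌈((nm z : ℝ) / X - s₁) * I / (s₂ - s₁)⌉₊ - 1 < I
    have : ⌈((nm z : ℝ) / X - s₁) * I / (s₂ - s₁)⌉₊ ≤ I := by
      rw [Nat.ceil_le, div_le_iff₀ hs]
      have : (nm z : ℝ) / X ≤ s₂ := by rw [div_le_iff₀ hX]; exact h3
      nlinarith
    omega
  · obtain ⟨j, hj, hj2⟩ := aix_range (n := n) z
    show (aix n z).toNat ∈ range (n + 1)
    rw [hj2]
    simpa using hj

lemma idx_aix {s₁ s₂ X : ℝ} {I n : ℕ} {z w : Qd t c}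
    (h : idx s₁ s₂ X I n z = idx s₁ s₂ X I n w) : aix n z = aix n w := by
  unfold idx at h
  simp only [Prod.mk.injEq] at h
  obtain ⟨j, -, hj⟩ := aix_range (n := n) z
  obtain ⟨k, -, hk⟩ := aix_range (n := n) w
  have := h.2
  rw [hj, hk] at this ⊢
  simpa using this

lemma idx_shell {s₁ s₂ X : ℝ} {I n : ℕ} (hI : 1 ≤ I) (hX : 0 < X) (h12 : s₁ < s₂) {z w : Qd t c}
    (hz : s₁ * X < (nm z : ℝ)) (hw : s₁ * X < (nm w : ℝ))
    (h : idx s₁ s₂ X I n z = idx s₁ s₂ X I n w) :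
    |(nm z : ℝ) - nm w| ≤ (s₂ - s₁) / I * X := by
  unfold idx at h
  simp only [Prod.mk.injEq] at h
  have h1 := (shell_iff hI hX h12 hw _).1 rfl
  have h2 := (shell_iff hI hX h12 hz _).1 h.1
  have h3 : ∀ i : ℕ, aI s₁ s₂ I (i + 1) * X - aI s₁ s₂ I i * X = (s₂ - s₁) / I * X := by
    intro i
    unfold aI
    push_cast
    ring
  rw [abs_le]
  have h4 := h3 (⌈((nm w : ℝ) / X - s₁) * I / (s₂ - s₁)⌉₊ - 1)
  constructor
  · linarith [h1.1, h1.2, h2.1, h2.2]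
  · linarith [h1.1, h1.2, h2.1, h2.2]

/-- same sign -/
lemma close_pos {w z z' : Qd t c} (hw : w ≠ 0) (hz : z ≠ 0) (hz' : z' ≠ 0) {X α δ q : ℝ} (hX : 0 < X)
    (hq : 0 < q) (hαδ : α < δ) (hδ : 0 < δ) (h1 : δ * q ≤ (dt z w : ℝ)) (h2 : (nm z : ℝ) ≤ X)
    (h3 : (nm w : ℝ) ≤ X) (h4 : 2 * |ang z - ang z'| ≤ α * q / X) : 0 < dt z' w := by
  have hnz : 0 < Real.sqrt (nm z) := Real.sqrt_pos.2 (nm_posR hD01 hz)
  have hnw : 0 < Real.sqrt (nm w) := Real.sqrt_pos.2 (nm_posR hD01 hw)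
  have hnz' : 0 < Real.sqrt (nm z') := Real.sqrt_pos.2 (nm_posR hD01 hz')
  have hk := kf_pos (t := t) (c := c)
  have hk2 := kf_le (t := t) (c := c)
  have e1 := dt_sin hz hw
  have e2 := dt_sin hz' hw
  have e3 : Real.sqrt (nm z) * Real.sqrt (nm w) ≤ X := by
    calc Real.sqrt (nm z) * Real.sqrt (nm w) ≤ Real.sqrt X * Real.sqrt X := by
          gcongr
      _ = X := Real.mul_self_sqrt hX.le
  have hsin : 0 < Real.sin (ang w - ang z) := by
    by_contra hc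
    push Not at hc
    have : (dt z w : ℝ) ≤ 0 := by
      rw [e1]
      exact mul_nonpos_of_nonneg_of_nonpos hk.le
        (mul_nonpos_of_nonneg_of_nonpos (by positivity) hc)
    nlinarith
  have e4 : δ * q ≤ kf t c * (X * Real.sin (ang w - ang z)) := by
    calc δ * q ≤ _ := h1
      _ = kf t c * (Real.sqrt (nm z) * Real.sqrt (nm w) * Real.sin (ang w - ang z)) := e1
      _ ≤ kf t c * (X * Real.sin (ang w - ang z)) :=
          mul_le_mul_of_nonneg_left (mul_le_mul_of_nonneg_right e3 hsin.le) hk.le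
  have e5 := sin_lip (ang w - ang z) (ang w - ang z')
  have e6 : |ang w - ang z - (ang w - ang z')| = |ang z - ang z'| := by
    rw [show ang w - ang z - (ang w - ang z') = -(ang z - ang z') by ring, abs_neg]
  rw [e6] at e5
  have e7 : 2 * |ang z - ang z'| * X ≤ α * q := by
    rw [le_div_iff₀ hX] at h4
    exact h4
  have e7' : α * q < δ * q := mul_lt_mul_of_pos_right hαδ hq
  have e8 : 0 < Real.sin (ang w - ang z') := by
    by_contra hc
    push Not at hc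
    have k1 : Real.sin (ang w - ang z) ≤ |ang z - ang z'| := by linarith
    have k2 : X * Real.sin (ang w - ang z) ≤ X * |ang z - ang z'| :=
      mul_le_mul_of_nonneg_left k1 hX.le
    have k3 : kf t c * (X * Real.sin (ang w - ang z)) ≤ 2 * (X * |ang z - ang z'|) :=
      mul_le_mul hk2 k2 (by positivity) (by norm_num)
    linarith
  have e9 : (0 : ℝ) < (dt z' w : ℝ) := by
    rw [e2]; positivity
  exact_mod_cast e9

lemma near_l {a w z : Qd t c} (ha : a ≠ 0) (hw : w ≠ 0) (hz : z ≠ 0) {θ : ℝ} (h1 : dt a z ≤ 0)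
    (h2 : 2 * |ang z - ang w| ≤ θ) : (dt a w : ℝ) ≤ Real.sqrt (nm a) * Real.sqrt (nm w) * θ := by
  have hna : 0 < Real.sqrt (nm a) := Real.sqrt_pos.2 (nm_posR hD01 ha)
  have hnz : 0 < Real.sqrt (nm z) := Real.sqrt_pos.2 (nm_posR hD01 hz)
  have hk := kf_pos (t := t) (c := c)
  have hk2 := kf_le (t := t) (c := c)
  have e1 := dt_sin ha hz
  have e2 := dt_sin ha hw
  have e3 : Real.sin (ang z - ang a) ≤ 0 := by
    by_contra hc
    push Not at hc
    have : (0 : ℝ) < (dt a z : ℝ) := by rw [e1]; positivity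
    have h3 : 0 < dt a z := by exact_mod_cast this
    omega
  have e4 := sin_lip (ang w - ang a) (ang z - ang a)
  have e5 : |ang w - ang a - (ang z - ang a)| = |ang z - ang w| := by
    rw [show ang w - ang a - (ang z - ang a) = -(ang z - ang w) by ring, abs_neg]
  rw [e5] at e4
  rw [e2]
  have k1 : Real.sqrt (nm a) * Real.sqrt (nm w) * Real.sin (ang w - ang a) ≤
      Real.sqrt (nm a) * Real.sqrt (nm w) * |ang z - ang w| :=
    mul_le_mul_of_nonneg_left (by linarith) (by positivity)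
  have k0 : 0 ≤ Real.sqrt (nm a) * Real.sqrt (nm w) := by positivity
  calc kf t c * (Real.sqrt (nm a) * Real.sqrt (nm w) * Real.sin (ang w - ang a))
      ≤ kf t c * (Real.sqrt (nm a) * Real.sqrt (nm w) * |ang z - ang w|) :=
        mul_le_mul_of_nonneg_left k1 hk.le
    _ ≤ 2 * (Real.sqrt (nm a) * Real.sqrt (nm w) * |ang z - ang w|) :=
        mul_le_mul_of_nonneg_right hk2 (by positivity)
    _ = Real.sqrt (nm a) * Real.sqrt (nm w) * (2 * |ang z - ang w|) := by ring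
    _ ≤ _ := mul_le_mul_of_nonneg_left h2 k0

lemma near_r {b w z : Qd t c} (hb : b ≠ 0) (hw : w ≠ 0) (hz : z ≠ 0) {θ : ℝ} (h1 : dt z b ≤ 0)
    (h2 : 2 * |ang z - ang w| ≤ θ) : (dt w b : ℝ) ≤ Real.sqrt (nm b) * Real.sqrt (nm w) * θ := by
  have hna : 0 < Real.sqrt (nm b) := Real.sqrt_pos.2 (nm_posR hD01 hb)
  have hnz : 0 < Real.sqrt (nm z) := Real.sqrt_pos.2 (nm_posR hD01 hz)
  have hk := kf_pos (t := t) (c := c)
  have hk2 := kf_le (t := t) (c := c)
  have e1 := dt_sin hz hb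
  have e2 := dt_sin hw hb
  have e3 : Real.sin (ang b - ang z) ≤ 0 := by
    by_contra hc
    push Not at hc
    have : (0 : ℝ) < (dt z b : ℝ) := by rw [e1]; positivity
    have h3 : 0 < dt z b := by exact_mod_cast this
    omega
  have e4 := sin_lip (ang b - ang w) (ang b - ang z)
  have e5 : |ang b - ang w - (ang b - ang z)| = |ang z - ang w| := by
    rw [show ang b - ang w - (ang b - ang z) = (ang z - ang w) by ring]
  rw [e5] at e4
  rw [e2]
  have k1 : Real.sqrt (nm w) * Real.sqrt (nm b) * Real.sin (ang b - ang w) ≤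
      Real.sqrt (nm w) * Real.sqrt (nm b) * |ang z - ang w| :=
    mul_le_mul_of_nonneg_left (by linarith) (by positivity)
  have k0 : 0 ≤ Real.sqrt (nm b) * Real.sqrt (nm w) := by positivity
  calc kf t c * (Real.sqrt (nm w) * Real.sqrt (nm b) * Real.sin (ang b - ang w))
      ≤ kf t c * (Real.sqrt (nm w) * Real.sqrt (nm b) * |ang z - ang w|) :=
        mul_le_mul_of_nonneg_left k1 hk.le
    _ ≤ 2 * (Real.sqrt (nm w) * Real.sqrt (nm b) * |ang z - ang w|) :=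
        mul_le_mul_of_nonneg_right hk2 (by positivity)
    _ = Real.sqrt (nm b) * Real.sqrt (nm w) * (2 * |ang z - ang w|) := by ring
    _ ≤ _ := mul_le_mul_of_nonneg_left h2 k0

end

/-- combination of finitely many estimates -/
lemma fin_comb {τ : Type} (T : Finset τ) (F : τ → ℝ → ℕ → ℝ) {ε : ℝ}
    (h : ∀ k ∈ T, ∃ H : ℝ, 1 ≤ H ∧ ∃ X₀ : ℝ, ∀ X : ℝ, X₀ ≤ X → ∀ n : ℕ, 1 ≤ n → n * H ≤ X →
      F k X n ≤ ε * X) :
    ∃ H : ℝ, 1 ≤ H ∧ ∃ X₀ : ℝ, ∀ X : ℝ, X₀ ≤ X → ∀ n : ℕ, 1 ≤ n → n * H ≤ X →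
      ∑ k ∈ T, F k X n ≤ T.card * (ε * X) := by
  classical
  induction T using Finset.induction_on with
  | empty =>
    refine ⟨1, le_rfl, 0, fun X _ n _ _ => ?_⟩
    simp
  | insert a T ha ih =>
    obtain ⟨H₁, hH₁, X₁, h₁⟩ := ih (fun k hk => h k (mem_insert_of_mem hk))
    obtain ⟨H₂, hH₂, X₂, h₂⟩ := h a (mem_insert_self _ _)
    refine ⟨max H₁ H₂, le_max_of_le_left hH₁, max X₁ X₂, fun X hX n hn hnX => ?_⟩
    have hn' : (0 : ℝ) ≤ n := by positivity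
    have g1 := h₁ X ((le_max_left _ _).trans hX) n hn
      ((mul_le_mul_of_nonneg_left (le_max_left _ _) hn').trans hnX)
    have g2 := h₂ X ((le_max_right _ _).trans hX) n hn
      ((mul_le_mul_of_nonneg_left (le_max_right _ _) hn').trans hnX)
    rw [sum_insert ha, card_insert_of_notMem ha]
    push_cast
    linarith

section
variable [Fact (t ^ 2 < 4 * c)]

open scoped Classical in
/-- the consequence of the Matomaki-Radziwill theorem -/
lemma mrs_allX {aa : Qd t c → ℝ} (h1 : Mrs aa) {M : ℕ} {S : Qd t c → Qd t c → Prop} (hF : Fam χ M S) {s₁ s₂ : ℝ} (hs₁ : 0 < s₁)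
    (h12 : s₁ < s₂) (hs₂ : s₂ ≤ 1) {I : ℕ} (hI : 1 ≤ I) {ε : ℝ} (hε : 0 < ε) :
    ∃ H : ℝ, 1 ≤ H ∧ ∃ X₀ : ℝ, ∀ X : ℝ, X₀ ≤ X → ∀ n : ℕ, 1 ≤ n → n * H ≤ X →
      ∑ p ∈ range I ×ˢ range (n + 1), ∑ r ∈ RR t c M,
        absS (An t c s₁ s₂ X) (idx s₁ s₂ X I n) p (fun z => S z r) aa ≤
        (range I ×ˢ RR t c M).card * (ε * X) := by
  have hI' : (0 : ℝ) < I := by exact_mod_cast hI
  have key : ∀ k ∈ range I ×ˢ RR t c M, ∃ H : ℝ, 1 ≤ H ∧ ∃ X₀ : ℝ, ∀ X : ℝ, X₀ ≤ X → ∀ n : ℕ,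
      1 ≤ n → n * H ≤ X → ∑ j ∈ range (n + 1),
        absS (An t c s₁ s₂ X) (idx s₁ s₂ X I n) (k.1, j) (fun z => S z k.2) aa ≤
        ε * X := by
    rintro ⟨i, r⟩ hk
    rw [mem_product, mem_range] at hk
    have hi : i < I := hk.1
    set a : ℝ := aI s₁ s₂ I i with ha
    set b : ℝ := aI s₁ s₂ I (i + 1) with hb
    have hab : a < b := by
      rw [ha, hb]; unfold aI
      push_cast
      have : 0 < (s₂ - s₁) / I := div_pos (by linarith) hI'
      have e : ((i : ℝ) + 1) * (s₂ - s₁) / I = i * (s₂ - s₁) / I + (s₂ - s₁) / I := by ring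
      rw [e]; linarith
    have ha0 : s₁ ≤ a := by
      rw [ha]; unfold aI
      have : 0 ≤ (i : ℝ) * (s₂ - s₁) / I := div_nonneg (mul_nonneg (by positivity) (by linarith)) hI'.le
      linarith
    have hb1 : b ≤ s₂ := by
      rw [hb]; unfold aI
      push_cast
      have : ((i : ℝ) + 1) * (s₂ - s₁) / I ≤ s₂ - s₁ := by
        rw [div_le_iff₀ hI']
        have h3 : ((i : ℝ) + 1) ≤ I := by exact_mod_cast hi
        nlinarith
      linarith
    have hb0 : 0 < b := by linarith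
    obtain ⟨H, hH, X₀, h2⟩ := h1 M (fun z => S z r) hF.M1 (hF.cls r) (a / b)
      (div_pos (by linarith) hb0) ((div_lt_one hb0).2 hab) ε hε
    refine ⟨H / b, ?_, max (X₀ / b) 1, fun X hX n hn hnX => ?_⟩
    · rw [le_div_iff₀ hb0]; linarith
    have hX1 : 1 ≤ X := (le_max_right _ _).trans hX
    have hX2 : X₀ ≤ b * X := by
      have := (le_max_left (X₀ / b) 1).trans hX
      rw [div_le_iff₀ hb0] at this
      linarith
    have hX3 : n * H ≤ b * X := by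
      rw [← mul_div_assoc, div_le_iff₀ hb0] at hnX
      linarith
    have h3 := h2 (b * X) hX2 n hn hX3
    have h4 : ∀ j : ℕ, (cel (An t c s₁ s₂ X) (idx s₁ s₂ X I n) (i, j)).filter (fun z => S z r) =
        (pball t c (b * X)).filter (fun z => a / b * (b * X) < (nm z : ℝ) ∧ S z r ∧
          aix n z = (j : ℤ)) := by
      intro j
      ext z
      have e0 : a / b * (b * X) = a * X := by field_simp
      rw [mem_filter, mem_cel, mem_filter, mem_An, mem_pball hD01, e0]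
      constructor
      · rintro ⟨⟨⟨⟨p1, p2⟩, p3, p4⟩, p5⟩, p6⟩
        unfold idx at p5
        simp only [Prod.mk.injEq] at p5
        have q1 := (shell_iff hI (by linarith) h12 p3 i).1 p5.1
        refine ⟨⟨p1, q1.2⟩, q1.1, p6, ?_⟩
        obtain ⟨j', -, hj'⟩ := aix_range (n := n) z
        have := p5.2
        rw [hj'] at this ⊢
        simpa using this
      · rintro ⟨⟨p1, p2⟩, p3, p4, p5⟩
        have q1 : s₁ * X < (nm z : ℝ) := by
          refine lt_of_le_of_lt ?_ p3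
          exact mul_le_mul_of_nonneg_right ha0 (by linarith)
        have q2 : (nm z : ℝ) ≤ s₂ * X :=
          p2.trans (mul_le_mul_of_nonneg_right hb1 (by linarith))
        have q3 : (nm z : ℝ) ≤ X := q2.trans (by nlinarith)
        refine ⟨⟨⟨⟨p1, q3⟩, q1, q2⟩, ?_⟩, p4⟩
        unfold idx
        simp only [Prod.mk.injEq]
        refine ⟨(shell_iff hI (by linarith) h12 q1 i).2 ⟨p3, p2⟩, ?_⟩
        rw [p5]; simp
    have h5 : ∑ j ∈ range (n + 1),
        absS (An t c s₁ s₂ X) (idx s₁ s₂ X I n) (i, j) (fun z => S z r) aa ≤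
        ε * (b * X) := by
      refine le_trans (le_of_eq ?_) h3
      refine sum_congr rfl fun j _ => ?_
      unfold absS
      rw [h4 j]
    refine h5.trans ?_
    have : b * X ≤ X := by nlinarith
    exact mul_le_mul_of_nonneg_left this hε.le
  obtain ⟨H, hH, X₀, h2⟩ := fin_comb (range I ×ˢ RR t c M) _ key
  refine ⟨H, hH, X₀, fun X hX n hn hnX => ?_⟩
  refine le_trans (le_of_eq ?_) (h2 X hX n hn hnX)
  rw [sum_product, sum_product]
  refine sum_congr rfl fun i _ => ?_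
  rw [sum_comm]

end

end Pool.Agent.W372.EG
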