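import Pool.Agent.W372.EG.Geo

/-!
Project EG (helper78), BTMX: the constants. Port of W125/EC/Cst.
-/

set_option autoImplicit false
set_option linter.all false

namespace Pool.Agent.W372.EG

open Finset Filter
open Pool.Agent.W78.GA
open Pool.Agent.W78.EG
open Pool.Agent.W125.EC (cel absS nc FFa mem_cel absS_nonneg sum_cel cellA0 lineSum cellA cellB cellC div_totient sqf_le tl tl_nonneg tail_small avg_le split)

variable {t c : ℤ} {f : ℕ} {χ : DirichletCharacter ℂ f}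

/-- the bounds which are used -/
structure Cst (t c : ℤ) {f : ℕ} (χ : DirichletCharacter ℂ f) (K : ℕ) (κ s₁ s₂ C : ℝ) : Prop where
  one : 1 ≤ C
  gcard : ∀ (Q : ℕ) (X : ℝ), 1 ≤ Q → f * (K * Q : ℝ) ≤ X →
    ((good t c K κ Q X).card : ℝ) ≤ C * (X / Q)
  vcard : ∀ (Q : ℕ) (X : ℝ), 1 ≤ Q → f * (K * Q : ℝ) ≤ X → ∀ e ∈ good t c K κ Q X,
    ((cw X s₁ s₂ e.1 e.2).card : ℝ) ≤ C * Q
  dtle : ∀ (Q : ℕ) (X : ℝ), 1 ≤ Q → f * (K * Q : ℝ) ≤ X → ∀ e ∈ good t c K κ Q X,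
    ∀ w₁ ∈ cw X s₁ s₂ e.1 e.2, ∀ w₂ ∈ cw X s₁ s₂ e.1 e.2, (dt w₁ w₂ : ℝ) ≤ C * Q
  line : ∀ (Q : ℕ) (X : ℝ), 1 ≤ Q → f * (K * Q : ℝ) ≤ X → ∀ e ∈ good t c K κ Q X,
    ∀ w ∈ cw X s₁ s₂ e.1 e.2, ∀ m : ℤ,
    (((cw X s₁ s₂ e.1 e.2).filter (fun z => dt w z = m)).card : ℝ) ≤ C
  jb : ∀ (Q : ℕ) (X : ℝ), 1 ≤ Q → f * (K * Q : ℝ) ≤ X → ∀ e ∈ good t c K κ Q X,
    ∀ w₁ ∈ cw X s₁ s₂ e.1 e.2, ∀ w₂ ∈ cw X s₁ s₂ e.1 e.2, 0 < dt w₁ w₂ →
    (1 + xi χ w₁ w₂) * |kk Q X w₁ w₂| ≤ C * Q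
  near : ∀ (Q : ℕ) (X : ℝ), 1 ≤ Q → f * (K * Q : ℝ) ≤ X → ∀ e ∈ good t c K κ Q X, ∀ m : ℝ, 0 ≤ m →
    (((cw X s₁ s₂ e.1 e.2).filter (fun w => (dt e.1 w : ℝ) ≤ m ∨ (dt w e.2 : ℝ) ≤ m)).card : ℝ) ≤
      C * Real.sqrt Q * m

section
variable [Fact (t ^ 2 < 4 * c)]

lemma mem_cw {X s₁ s₂ : ℝ} {a b z : Qd t c} : z ∈ cw X s₁ s₂ a b ↔
    z ∈ cone X a b ∧ s₁ * X < (nm z : ℝ) ∧ (nm z : ℝ) ≤ s₂ * X := by
  unfold cw
  rw [mem_filter]

lemma mem_good {K : ℕ} {κ : ℝ} {Q : ℕ} {X : ℝ} {e : Qd t c × Qd t c} : e ∈ good t c K κ Q X ↔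
    e ∈ edge t c (X / (K * Q)) ∧ κ * (X / (K * Q)) < (nm e.1 : ℝ) ∧
      κ * (X / (K * Q)) < (nm e.2 : ℝ) := by
  unfold good
  rw [mem_filter]

lemma xi_le (z w : Qd t c) : xi χ z w ≤ 1 := by
  unfold xi
  split_ifs <;> norm_num

lemma le_xi (z w : Qd t c) : 0 ≤ 1 + xi χ z w := by
  unfold xi
  split_ifs <;> norm_num

lemma G0_eq (Q : ℕ) (X : ℝ) {w₁ w₂ : Qd t c} (h : 0 < dt w₁ w₂) : G0 χ Q X w₁ w₂ =
    (1 + xi χ w₁ w₂) * ((dt w₁ w₂ : ℝ) / (Nat.totient (dt w₁ w₂).toNat : ℝ)) *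
      kk Q X w₁ w₂ := by
  have h1 : (0 : ℝ) < (dt w₁ w₂ : ℝ) := by exact_mod_cast h
  have h2 : (0 : ℝ) < (Nat.totient (dt w₁ w₂).toNat : ℝ) := by
    have : 0 < (dt w₁ w₂).toNat := by omega
    exact_mod_cast Nat.totient_pos.2 this
  unfold G0 kk
  field_simp

/-- coordinates -/
lemma coords (h5 : S_DTB t c f) {K : ℕ} {κ : ℝ} {Q : ℕ} {X : ℝ} (hK : 1 ≤ K) (hκ : 0 < κ) (hQ : 1 ≤ Q)
    (hX : f * (K * Q : ℝ) ≤ X) {e : Qd t c × Qd t c} (he : e ∈ good t c K κ Q X) {v : Qd t c}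
    (hv : v ∈ cone X e.1 e.2) : 0 < dt v e.2 ∧ 0 < dt e.1 v ∧
      ((dt v e.2 : ℤ) : ℝ) ^ 2 ≤ K * Q / κ ∧ ((dt e.1 v : ℤ) : ℝ) ^ 2 ≤ K * Q / κ := by
  obtain ⟨-, h⟩ := h5 K κ Q X hK hκ hQ hX e he
  obtain ⟨x, y, hx, hy, hx2, hy2, hv'⟩ := h v hv
  have hab : dt e.1 e.2 = 1 := (mem_edge.1 (mem_good.1 he).1).2.1
  have e1 : dt v e.2 = x := by
    have : dt v e.2 = x * dt e.1 e.2 := by
      rw [hv']
      unfold dt
      simp only [QuadraticAlgebra.re_add, QuadraticAlgebra.im_add, QuadraticAlgebra.re_mul,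
        QuadraticAlgebra.im_mul, QuadraticAlgebra.re_natCast, QuadraticAlgebra.im_natCast]
      ring
    rw [this, hab, mul_one]
  have e2 : dt e.1 v = y := by
    have : dt e.1 v = y * dt e.1 e.2 := by
      rw [hv']
      unfold dt
      simp only [QuadraticAlgebra.re_add, QuadraticAlgebra.im_add, QuadraticAlgebra.re_mul,
        QuadraticAlgebra.im_mul, QuadraticAlgebra.re_natCast, QuadraticAlgebra.im_natCast]
      ring
    rw [this, hab, mul_one]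
  rw [e1, e2]
  refine ⟨by exact_mod_cast hx, by exact_mod_cast hy, ?_, ?_⟩
  · exact_mod_cast hx2
  · exact_mod_cast hy2

lemma dt_expand {e : Qd t c × Qd t c} (hab : dt e.1 e.2 = 1) (v w : Qd t c) :
    dt v w = dt v e.2 * dt e.1 w - dt e.1 v * dt w e.2 := by
  unfold dt at *
  linear_combination (-(v.re * w.im - v.im * w.re)) * hab

lemma good_card (HF : Fd t c f χ) (h4 : S_LN t c) {K : ℕ} {κ : ℝ} (hK : 1 ≤ K) (hκ : 0 < κ) : ∃ C : ℝ, 0 ≤ C ∧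
    ∀ (Q : ℕ) (X : ℝ), 1 ≤ Q → f * (K * Q : ℝ) ≤ X →
    ((good t c K κ Q X).card : ℝ) ≤ C * (X / Q) := by
  classical
  obtain ⟨C, hC⟩ := h4 κ hκ
  have h3f : (3 : ℝ) ≤ f := by exact_mod_cast HF.three
  refine ⟨25 * C, by positivity, fun Q X hQ hX => ?_⟩
  have hK' : (1 : ℝ) ≤ K := by exact_mod_cast hK
  have hQ' : (1 : ℝ) ≤ Q := by exact_mod_cast hQ
  have hKQ : (0 : ℝ) < K * Q := by positivity
  set Y : ℝ := X / (K * Q) with hY
  have hY1 : 1 ≤ Y := by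
    rw [hY, le_div_iff₀ hKQ]; nlinarith
  have hmaps : ∀ e ∈ good t c K κ Q X, e.1 ∈ ball t c Y := by
    intro e he
    have h := (mem_edge.1 (mem_good.1 he).1).1.1
    rw [mem_ball hD01]
    exact ⟨(one_le_nm hD01).2 (prim_ne_zero h.1), h.2⟩
  rw [card_eq_sum_card_fiberwise hmaps]
  have hfib : ∀ a ∈ ball t c Y, ((good t c K κ Q X).filter (fun e => e.1 = a)).card ≤ C := by
    intro a _
    rcases ((good t c K κ Q X).filter (fun e => e.1 = a)).eq_empty_or_nonempty with h0 | ⟨e0, he0⟩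
    · rw [h0]; simp
    · rw [mem_filter] at he0
      obtain ⟨g1, g2, -⟩ := mem_good.1 he0.1
      have g3 := (mem_edge.1 g1).1.1.1
      rw [he0.2] at g2 g3
      refine le_trans ?_ (hC Y a 1 hY1 g3 g2)
      apply card_le_card_of_injOn (fun e => e.2)
      · intro e he
        rw [mem_coe, mem_filter] at he
        have k1 := mem_edge.1 (mem_good.1 he.1).1
        rw [mem_coe, mem_filter, mem_ball hD01]
        refine ⟨⟨(one_le_nm hD01).2 (prim_ne_zero k1.1.2.1), ?_⟩, ?_⟩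
        · have := k1.1.2.2
          show (nm e.2 : ℝ) ≤ 4 * Y
          linarith
        · show dt a e.2 = 1
          rw [← he.2]; exact k1.2.1
      · intro e he f hf hef
        rw [mem_coe, mem_filter] at he hf
        exact Prod.ext (he.2.trans hf.2.symm) hef
  have h1 : (∑ a ∈ ball t c Y, ((good t c K κ Q X).filter (fun e => e.1 = a)).card : ℕ) ≤
      (ball t c Y).card * C := by
    rw [← smul_eq_mul]
    exact sum_le_card_nsmul _ _ _ hfib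
  have h2 := card_ball (t := t) (c := c) hY1
  have h3 : (0 : ℝ) ≤ C := by positivity
  calc ((∑ a ∈ ball t c Y, ((good t c K κ Q X).filter (fun e => e.1 = a)).card : ℕ) : ℝ)
      ≤ ((ball t c Y).card : ℝ) * C := by exact_mod_cast h1
    _ ≤ 25 * Y * C := by gcongr
    _ = 25 * C * Y := by ring
    _ ≤ 25 * C * (X / Q) := by
        apply mul_le_mul_of_nonneg_left _ (by positivity)
        rw [hY]
        apply div_le_div_of_nonneg_left (le_trans (by positivity) hX) (by positivity)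
        nlinarith

lemma near_card (h5 : S_DTB t c f) {K : ℕ} {κ : ℝ} (s₁ s₂ : ℝ) {Q : ℕ} {X : ℝ} (hK : 1 ≤ K) (hκ : 0 < κ)
    (hQ : 1 ≤ Q) (hX : f * (K * Q : ℝ) ≤ X) {e : Qd t c × Qd t c} (he : e ∈ good t c K κ Q X) {m : ℝ}
    (hm : 0 ≤ m) :
    (((cw X s₁ s₂ e.1 e.2).filter (fun w => (dt e.1 w : ℝ) ≤ m ∨ (dt w e.2 : ℝ) ≤ m)).card : ℝ) ≤
      2 * Real.sqrt (K / κ) * Real.sqrt Q * m := by
  classical
  have hab : dt e.1 e.2 = 1 := (mem_edge.1 (mem_good.1 he).1).2.1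
  set R : ℝ := Real.sqrt (K * Q / κ) with hR
  have hR2 : R = Real.sqrt (K / κ) * Real.sqrt Q := by
    rw [hR, ← Real.sqrt_mul (by positivity)]
    congr 1; ring
  have hinj : ∀ w ∈ cw X s₁ s₂ e.1 e.2, ∀ w' ∈ cw X s₁ s₂ e.1 e.2,
      dt e.1 w = dt e.1 w' → dt w e.2 = dt w' e.2 → w = w' := by
    intro w _ w' _ k1 k2
    obtain ⟨a1, a2⟩ := decomp hab w
    obtain ⟨b1, b2⟩ := decomp hab w'
    apply QuadraticAlgebra.ext
    · rw [a1, b1, k1, k2]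
    · rw [a2, b2, k1, k2]
  have hc : ∀ w ∈ cw X s₁ s₂ e.1 e.2, 0 < dt w e.2 ∧ 0 < dt e.1 w ∧
      ((dt w e.2 : ℤ) : ℝ) ≤ R ∧ ((dt e.1 w : ℤ) : ℝ) ≤ R := by
    intro w hw
    obtain ⟨c1, c2, c3, c4⟩ := coords h5 hK hκ hQ hX he (mem_cw.1 hw).1
    refine ⟨c1, c2, ?_, ?_⟩
    · exact Real.le_sqrt_of_sq_le c3
    · exact Real.le_sqrt_of_sq_le c4
  have hfl : ∀ (k : ℤ) (x : ℝ), 0 < k → (k : ℝ) ≤ x → k.toNat ∈ Icc 1 ⌊x⌋₊ := by
    intro k x hk hx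
    rw [mem_Icc]
    refine ⟨by omega, Nat.le_floor ?_⟩
    have : ((k.toNat : ℕ) : ℤ) = k := Int.toNat_of_nonneg hk.le
    have h2 : ((k.toNat : ℕ) : ℝ) = (k : ℝ) := by exact_mod_cast this
    rw [h2]; exact hx
  rw [filter_or]
  have b1 : (((cw X s₁ s₂ e.1 e.2).filter (fun w => (dt e.1 w : ℝ) ≤ m)).card : ℝ) ≤ R * m := by
    have : ((cw X s₁ s₂ e.1 e.2).filter (fun w => (dt e.1 w : ℝ) ≤ m)).card ≤
        (Icc 1 ⌊R⌋₊ ×ˢ Icc 1 ⌊m⌋₊).card := by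
      apply card_le_card_of_injOn (fun w => ((dt w e.2).toNat, (dt e.1 w).toNat))
      · intro w hw
        rw [mem_coe, mem_filter] at hw
        obtain ⟨c1, c2, c3, c4⟩ := hc w hw.1
        rw [mem_coe, mem_product]
        exact ⟨hfl _ _ c1 c3, hfl _ _ c2 hw.2⟩
      · intro w hw w' hw' hww
        rw [mem_coe, mem_filter] at hw hw'
        obtain ⟨c1, c2, -, -⟩ := hc w hw.1
        obtain ⟨d1, d2, -, -⟩ := hc w' hw'.1
        simp only [Prod.mk.injEq] at hww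
        exact hinj w hw.1 w' hw'.1 (by omega) (by omega)
    rw [card_product, Nat.card_Icc, Nat.card_Icc] at this
    have h2 : (((cw X s₁ s₂ e.1 e.2).filter (fun w => (dt e.1 w : ℝ) ≤ m)).card : ℝ) ≤
        (⌊R⌋₊ : ℝ) * (⌊m⌋₊ : ℝ) := by
      have h3 : ((cw X s₁ s₂ e.1 e.2).filter (fun w => (dt e.1 w : ℝ) ≤ m)).card ≤
        ⌊R⌋₊ * ⌊m⌋₊ := by simpa using this
      exact_mod_cast h3
    refine h2.trans ?_
    gcongr
    · exact Nat.floor_le (Real.sqrt_nonneg _)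
    · exact Nat.floor_le hm
  have b2 : (((cw X s₁ s₂ e.1 e.2).filter (fun w => (dt w e.2 : ℝ) ≤ m)).card : ℝ) ≤ R * m := by
    have : ((cw X s₁ s₂ e.1 e.2).filter (fun w => (dt w e.2 : ℝ) ≤ m)).card ≤
        (Icc 1 ⌊R⌋₊ ×ˢ Icc 1 ⌊m⌋₊).card := by
      apply card_le_card_of_injOn (fun w => ((dt e.1 w).toNat, (dt w e.2).toNat))
      · intro w hw
        rw [mem_coe, mem_filter] at hw
        obtain ⟨c1, c2, c3, c4⟩ := hc w hw.1
        rw [mem_coe, mem_product]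
        exact ⟨hfl _ _ c2 c4, hfl _ _ c1 hw.2⟩
      · intro w hw w' hw' hww
        rw [mem_coe, mem_filter] at hw hw'
        obtain ⟨c1, c2, -, -⟩ := hc w hw.1
        obtain ⟨d1, d2, -, -⟩ := hc w' hw'.1
        simp only [Prod.mk.injEq] at hww
        exact hinj w hw.1 w' hw'.1 (by omega) (by omega)
    rw [card_product, Nat.card_Icc, Nat.card_Icc] at this
    have h2 : (((cw X s₁ s₂ e.1 e.2).filter (fun w => (dt w e.2 : ℝ) ≤ m)).card : ℝ) ≤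
        (⌊R⌋₊ : ℝ) * (⌊m⌋₊ : ℝ) := by
      have h3 : ((cw X s₁ s₂ e.1 e.2).filter (fun w => (dt w e.2 : ℝ) ≤ m)).card ≤
        ⌊R⌋₊ * ⌊m⌋₊ := by simpa using this
      exact_mod_cast h3
    refine h2.trans ?_
    gcongr
    · exact Nat.floor_le (Real.sqrt_nonneg _)
    · exact Nat.floor_le hm
  have b3 : ((((cw X s₁ s₂ e.1 e.2).filter (fun w => (dt e.1 w : ℝ) ≤ m)) ∪
      ((cw X s₁ s₂ e.1 e.2).filter (fun w => (dt w e.2 : ℝ) ≤ m))).card : ℝ) ≤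
      (((cw X s₁ s₂ e.1 e.2).filter (fun w => (dt e.1 w : ℝ) ≤ m)).card : ℝ) +
      (((cw X s₁ s₂ e.1 e.2).filter (fun w => (dt w e.2 : ℝ) ≤ m)).card : ℝ) := by
    exact_mod_cast card_union_le _ _
  calc _ ≤ _ := b3
    _ ≤ R * m + R * m := add_le_add b1 b2
    _ = _ := by rw [hR2]; ring

theorem exists_cst (HF : Fd t c f χ) (h2 : S_JB t c χ) (h4 : S_LN t c) (h5 : S_DTB t c f) {K : ℕ} {κ s₁ s₂ : ℝ} (hK : 1 ≤ K)
    (hκ : 0 < κ) (hs₁ : 0 < s₁) (hs₂ : s₂ ≤ 1) : ∃ C : ℝ, Cst t c χ K κ s₁ s₂ C := by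
  classical
  have hK' : (1 : ℝ) ≤ K := by exact_mod_cast hK
  obtain ⟨C1, hC1, hg⟩ := good_card HF h4 hK hκ
  obtain ⟨C2, hC2⟩ := h4 s₁ hs₁
  obtain ⟨C3, hC3⟩ := h2 s₁ hs₁
  set C4 : ℝ := 4 * (K / κ + 1) with hC4
  set C5 : ℝ := 2 * Real.sqrt (K / κ) with hC5
  have hC4' : 0 ≤ C4 := by positivity
  have hC5' : 0 ≤ C5 := by positivity
  set C : ℝ := 1 + C1 + C2 + |C3| + C4 + C5 with hC
  have hC2' : (0 : ℝ) ≤ C2 := by positivity
  have hC3' := abs_nonneg C3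
  have h3f : (3 : ℝ) ≤ f := by exact_mod_cast HF.three
  have hX1 : ∀ (Q : ℕ) (X : ℝ), 1 ≤ Q → f * (K * Q : ℝ) ≤ X → 1 ≤ X := by
    intro Q X hQ hX
    have hQ' : (1 : ℝ) ≤ Q := by exact_mod_cast hQ
    have hKQ : (1 : ℝ) ≤ K * Q := by nlinarith
    nlinarith
  refine ⟨C, ?_, ?_, ?_, ?_, ?_, ?_, ?_⟩
  · linarith
  · intro Q X hQ hX
    refine (hg Q X hQ hX).trans (mul_le_mul_of_nonneg_right (by linarith) ?_)
    have := hX1 Q X hQ hX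
    positivity
  · intro Q X hQ hX e he
    obtain ⟨h, -⟩ := h5 K κ Q X hK hκ hQ hX e he
    have hQ' : (1 : ℝ) ≤ Q := by exact_mod_cast hQ
    have h1 : ((cw X s₁ s₂ e.1 e.2).card : ℝ) ≤ ((cone X e.1 e.2).card : ℝ) := by
      exact_mod_cast card_le_card (fun z hz => (mem_cw.1 hz).1)
    refine h1.trans (h.trans ?_)
    calc 4 * ((K : ℝ) * Q / κ + 1) ≤ 4 * ((K : ℝ) * Q / κ + Q) := by linarith
      _ = C4 * Q := by rw [hC4]; ring
      _ ≤ C * Q := mul_le_mul_of_nonneg_right (by linarith) (by linarith)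
  · intro Q X hQ hX e he w₁ hw₁ w₂ hw₂
    have hab : dt e.1 e.2 = 1 := (mem_edge.1 (mem_good.1 he).1).2.1
    obtain ⟨a1, a2, a3, a4⟩ := coords h5 hK hκ hQ hX he (mem_cw.1 hw₁).1
    obtain ⟨b1, b2, b3, b4⟩ := coords h5 hK hκ hQ hX he (mem_cw.1 hw₂).1
    have hQ' : (1 : ℝ) ≤ Q := by exact_mod_cast hQ
    have h1 := dt_expand hab w₁ w₂
    have h2 : (dt w₁ w₂ : ℝ) = (dt w₁ e.2 : ℝ) * dt e.1 w₂ - (dt e.1 w₁ : ℝ) * dt w₂ e.2 := by
      exact_mod_cast h1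
    have a2' : (0 : ℝ) < dt e.1 w₁ := by exact_mod_cast a2
    have b1' : (0 : ℝ) < dt w₂ e.2 := by exact_mod_cast b1
    have h3 : (dt w₁ w₂ : ℝ) ≤ K * Q / κ := by
      nlinarith [sq_nonneg ((dt w₁ e.2 : ℝ) - dt e.1 w₂), mul_pos a2' b1']
    refine h3.trans ?_
    calc (K : ℝ) * Q / κ = K / κ * Q := by ring
      _ ≤ C4 * Q := by
        apply mul_le_mul_of_nonneg_right _ (by linarith)
        rw [hC4]
        have : 0 ≤ (K : ℝ) / κ := by positivity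
        linarith
      _ ≤ C * Q := mul_le_mul_of_nonneg_right (by linarith) (by linarith)
  · intro Q X hQ hX e he w hw m
    obtain ⟨c1, c2, c3⟩ := mem_cw.1 hw
    rw [mem_cone] at c1
    have h1 := hC2 X w m (hX1 Q X hQ hX) c1.1.1 c2
    have h2 : ((cw X s₁ s₂ e.1 e.2).filter (fun z => dt w z = m)).card ≤ C2 := by
      refine (card_le_card ?_).trans h1
      intro z hz
      rw [mem_filter] at hz ⊢
      obtain ⟨d1, d2, d3⟩ := mem_cw.1 hz.1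
      rw [mem_cone] at d1
      refine ⟨?_, hz.2⟩
      rw [mem_ball hD01]
      refine ⟨(one_le_nm hD01).2 (prim_ne_zero d1.1.1), ?_⟩
      have := hX1 Q X hQ hX
      linarith [d1.1.2]
    have h3 : (((cw X s₁ s₂ e.1 e.2).filter (fun z => dt w z = m)).card : ℝ) ≤ C2 := by
      exact_mod_cast h2
    linarith
  · intro Q X hQ hX e he w₁ hw₁ w₂ hw₂ hd
    have hQ' : (1 : ℝ) ≤ Q := by exact_mod_cast hQ
    obtain ⟨c1, c2, c3⟩ := mem_cw.1 hw₁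
    obtain ⟨d1, d2, d3⟩ := mem_cw.1 hw₂
    rw [mem_cone] at c1 d1
    have h1 := hC3 Q X w₁ w₂ hQ (hX1 Q X hQ hX) c2 c1.1.2 d2 d1.1.2 hd
    rw [G0_eq Q X hd, abs_mul, abs_mul, abs_of_nonneg (le_xi w₁ w₂)] at h1
    have h3 : (0 : ℝ) < (dt w₁ w₂ : ℝ) := by exact_mod_cast hd
    have h4 : (0 : ℝ) < (Nat.totient (dt w₁ w₂).toNat : ℝ) := by
      have : 0 < (dt w₁ w₂).toNat := by omega
      exact_mod_cast Nat.totient_pos.2 this
    set r : ℝ := (dt w₁ w₂ : ℝ) / (Nat.totient (dt w₁ w₂).toNat : ℝ) with hr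
    have hr0 : 0 < r := by positivity
    rw [abs_of_pos hr0] at h1
    have h5 : (1 + xi χ w₁ w₂) * |kk Q X w₁ w₂| * r ≤ (C3 * Q) * r := by linarith
    have h6 := le_of_mul_le_mul_right h5 hr0
    refine h6.trans (mul_le_mul_of_nonneg_right ?_ (by linarith))
    linarith [le_abs_self C3]
  · intro Q X hQ hX e he m hm
    refine (near_card h5 s₁ s₂ hK hκ hQ hX he hm).trans ?_
    apply mul_le_mul_of_nonneg_right _ hm
    apply mul_le_mul_of_nonneg_right _ (Real.sqrt_nonneg _)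
    linarith

end

end Pool.Agent.W372.EG
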