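import Pool.Agent.W78.EG.Defs
import Pool.Agent.W125.EC.Abs
import Pool.Agent.W125.EC.Tot

/-!
Project EG (helper78), BTMX: geometry of the cones. Port of W125/EC/Geo and W714/EC/Bij.
-/

set_option autoImplicit false
set_option linter.all false

namespace Pool.Agent.W372.EG

open Finset Filter
open Pool.Agent.W78.GA
open Pool.Agent.W78.EG

variable {t c : ℤ} {f : ℕ} {χ : DirichletCharacter ℂ f}

lemma Fd_D (HF : Fd t c f χ) : t ^ 2 < 4 * c := by
  have h1 := HF.disc
  have h2 := HF.three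
  have h3 : (3 : ℤ) ≤ (f : ℤ) := by exact_mod_cast h2
  linarith

lemma hD01 [h : Fact (t ^ 2 < 4 * c)] : t ^ 2 < 4 * c := h.out

/-- decomposition with respect to a basis of determinant one -/
lemma decomp {a b : Qd t c} (h : dt a b = 1) (z : Qd t c) :
    z.re = dt z b * a.re + dt a z * b.re ∧ z.im = dt z b * a.im + dt a z * b.im := by
  unfold dt at *
  constructor
  · linear_combination (-z.re) * h
  · linear_combination (-z.im) * h

lemma pp_eq (v u : Qd t c) :
    pp v u = 2 * v.re * u.re + t * (v.re * u.im + v.im * u.re) + 2 * c * v.im * u.im := by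
  unfold pp ip dt
  ring

section
variable [Fact (t ^ 2 < 4 * c)]

lemma nm_addp (v u : Qd t c) : (nm (v + u) : ℤ) = nm v + nm u + pp v u := by
  rw [nm_cast hD01, nm_cast hD01, nm_cast hD01, pp_eq]
  simp only [QuadraticAlgebra.re_add, QuadraticAlgebra.im_add]
  ring

lemma pp_dt (v u : Qd t c) : 4 * (nm v : ℤ) * nm u = pp v u ^ 2 + (4 * c - t ^ 2) * dt v u ^ 2 := by
  rw [nm_cast hD01, nm_cast hD01, pp_eq]
  unfold dt
  ring

/-- vectors strictly inside the cone over an edge have large norm -/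
lemma nm_inside {a b z : Qd t c} {Y : ℝ} (h : dt a b = 1) (ha : (nm a : ℝ) ≤ Y)
    (hb : (nm b : ℝ) ≤ Y)
    (hab : Y < (nm (a + b) : ℝ)) (h1 : 0 < dt a z) (h2 : 0 < dt z b) : Y < (nm z : ℝ) := by
  refine lt_of_lt_of_le hab ?_
  have key : (nm (a + b) : ℤ) ≤ nm z := by
    obtain ⟨e1, e2⟩ := decomp h z
    set m := dt z b with hm
    set n := dt a z with hn
    have hz : (nm z : ℤ) = m ^ 2 * nm a + n ^ 2 * nm b + m * n * pp a b := by
      rw [nm_cast hD01, nm_cast hD01, nm_cast hD01, e1, e2, pp_eq]; ring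
    have hs : (nm (a + b) : ℤ) = nm a + nm b + pp a b := nm_addp a b
    set A : ℤ := (nm a : ℤ) with hA
    set B : ℤ := (nm b : ℤ) with hB
    set q : ℤ := pp a b with hq
    have hsA : A < A + B + q := by
      rw [← hs]
      have h3 : (nm a : ℝ) < nm (a + b) := lt_of_le_of_lt ha hab
      have h4 : nm a < nm (a + b) := by exact_mod_cast h3
      rw [hA]
      exact_mod_cast h4
    have hsB : B < A + B + q := by
      rw [← hs]
      have h3 : (nm b : ℝ) < nm (a + b) := lt_of_le_of_lt hb hab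
      have h4 : nm b < nm (a + b) := by exact_mod_cast h3
      rw [hB]
      exact_mod_cast h4
    have hA0 : 0 ≤ A := by rw [hA]; positivity
    have hB0 : 0 ≤ B := by rw [hB]; positivity
    rw [hz, hs]
    have hcA : -A < q := by linarith
    have hcB : -B < q := by linarith
    have hmn : 1 ≤ m * n := by nlinarith
    have hm2 : 1 ≤ m ^ 2 := by nlinarith
    have hn2 : 1 ≤ n ^ 2 := by nlinarith
    -- (m² - 1) A + (n² - 1) B + (m n - 1) c ≥ 0
    have hd : 0 ≤ (m ^ 2 - 1) * A + (n ^ 2 - 1) * B + (m * n - 1) * q := by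
      rcases le_total A B with hAB | hAB
      · have t1 : (n ^ 2 - 1) * A ≤ (n ^ 2 - 1) * B := mul_le_mul_of_nonneg_left hAB (by linarith)
        have t2 : (m * n - 1) * (-A) ≤ (m * n - 1) * q :=
          mul_le_mul_of_nonneg_left hcA.le (by linarith)
        have t3 : 0 ≤ (m ^ 2 + n ^ 2 - 1 - m * n) * A := by
          apply mul_nonneg _ hA0
          nlinarith [sq_nonneg (m - n)]
        nlinarith
      · have t1 : (m ^ 2 - 1) * B ≤ (m ^ 2 - 1) * A := mul_le_mul_of_nonneg_left hAB (by linarith)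
        have t2 : (m * n - 1) * (-B) ≤ (m * n - 1) * q :=
          mul_le_mul_of_nonneg_left hcB.le (by linarith)
        have t3 : 0 ≤ (m ^ 2 + n ^ 2 - 1 - m * n) * B := by
          apply mul_nonneg _ hB0
          nlinarith [sq_nonneg (m - n)]
        nlinarith
    nlinarith
  exact_mod_cast key

/-- two primitive vectors with determinant zero are equal up to sign -/
lemma par_eq {a b : Qd t c} (ha : prim a) (hb : prim b) (h : dt a b = 0) : b = a ∨ b = -a := by
  unfold prim at ha hb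
  have ha' : IsCoprime a.re a.im := Int.isCoprime_iff_gcd_eq_one.2 ha
  have hb' : IsCoprime b.re b.im := Int.isCoprime_iff_gcd_eq_one.2 hb
  obtain ⟨x, y, hxy⟩ := ha'
  obtain ⟨x', y', hxy'⟩ := hb'
  -- b = k a with k = x b.re + y b.im
  set k := x * b.re + y * b.im with hk
  unfold dt at h
  have e1 : b.re = k * a.re := by
    rw [hk]; linear_combination (-b.re) * hxy - y * h
  have e2 : b.im = k * a.im := by
    rw [hk]; linear_combination (-b.im) * hxy + x * h
  have hu : k * (x' * a.re + y' * a.im) = 1 := by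
    calc k * (x' * a.re + y' * a.im) = x' * (k * a.re) + y' * (k * a.im) := by ring
      _ = x' * b.re + y' * b.im := by rw [← e1, ← e2]
      _ = 1 := hxy'
  have hk1 : k = 1 ∨ k = -1 := Int.isUnit_iff.1 (IsUnit.of_mul_eq_one _ hu)
  rcases hk1 with h1 | h1
  · left
    apply QuadraticAlgebra.ext
    · rw [e1, h1, one_mul]
    · rw [e2, h1, one_mul]
  · right
    apply QuadraticAlgebra.ext
    · rw [e1, h1, QuadraticAlgebra.re_neg]; ring
    · rw [e2, h1, QuadraticAlgebra.im_neg]; ring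

lemma mem_cone {X : ℝ} {a b z : Qd t c} :
    z ∈ cone X a b ↔ (prim z ∧ (nm z : ℝ) ≤ X) ∧ 0 < dt a z ∧ 0 < dt z b := by
  unfold cone
  rw [mem_filter, mem_pball hD01]

lemma mem_edge {Y : ℝ} {e : Qd t c × Qd t c} : e ∈ edge t c Y ↔
    ((prim e.1 ∧ (nm e.1 : ℝ) ≤ Y) ∧ (prim e.2 ∧ (nm e.2 : ℝ) ≤ Y)) ∧ dt e.1 e.2 = 1 ∧
      Y < (nm (e.1 + e.2) : ℝ) := by
  unfold edge
  rw [mem_filter, mem_product, mem_pball hD01, mem_pball hD01]

lemma dt_swap (a b : Qd t c) : dt a b = -dt b a := by unfold dt; ring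

lemma dt_le_aux {Y : ℝ} {e g : Qd t c × Qd t c} (he : e ∈ edge t c Y) (hf : g ∈ edge t c Y)
    {z : Qd t c}
    (h1 : 0 < dt e.1 z) (h2 : 0 < dt z e.2) (h3 : 0 < dt g.1 z) (h4 : 0 < dt z g.2) :
    dt e.1 g.1 ≤ 0 ∧ dt g.2 e.2 ≤ 0 := by
  rw [mem_edge] at he hf
  obtain ⟨⟨⟨pa, na⟩, ⟨pb, nb⟩⟩, hab, hY⟩ := he
  obtain ⟨⟨⟨pa', na'⟩, ⟨pb', nb'⟩⟩, hab', hY'⟩ := hf
  obtain ⟨e1, e2⟩ := decomp hab z
  constructor
  · by_contra hc
    push Not at hc
    have h5 : dt g.1 z = dt z e.2 * dt g.1 e.1 + dt e.1 z * dt g.1 e.2 := by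
      unfold dt at *
      linear_combination (g.1.re * z.im - g.1.im * z.re) * (-hab)
    rw [dt_swap g.1 e.1] at h5
    have h6 : 0 < dt g.1 e.2 := by
      by_contra h7
      push Not at h7
      nlinarith [mul_pos h2 hc, mul_nonneg h1.le (by linarith : 0 ≤ -dt g.1 e.2)]
    have := nm_inside hab na nb hY hc h6
    linarith
  · by_contra hc
    push Not at hc
    have h5 : dt z g.2 = dt z e.2 * dt e.1 g.2 + dt e.1 z * dt e.2 g.2 := by
      unfold dt at *
      linear_combination (z.re * g.2.im - z.im * g.2.re) * (-hab)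
    rw [dt_swap e.2 g.2] at h5
    have h6 : 0 < dt e.1 g.2 := by
      by_contra h7
      push Not at h7
      nlinarith [mul_pos h1 hc, mul_nonneg h2.le (by linarith : 0 ≤ -dt e.1 g.2)]
    have := nm_inside hab na nb hY h6 hc
    linarith

/-- the cones over different edges are disjoint -/
lemma edge_unique {Y : ℝ} {e g : Qd t c × Qd t c} (he : e ∈ edge t c Y) (hf : g ∈ edge t c Y)
    {z : Qd t c}
    (h1 : 0 < dt e.1 z) (h2 : 0 < dt z e.2) (h3 : 0 < dt g.1 z) (h4 : 0 < dt z g.2) : e = g := by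
  obtain ⟨k1, k2⟩ := dt_le_aux he hf h1 h2 h3 h4
  obtain ⟨k3, k4⟩ := dt_le_aux hf he h3 h4 h1 h2
  rw [mem_edge] at he hf
  have z1 : dt e.1 g.1 = 0 := by rw [dt_swap] at k3; linarith
  have z2 : dt e.2 g.2 = 0 := by rw [dt_swap] at k2; linarith
  apply Prod.ext
  · rcases par_eq he.1.1.1 hf.1.1.1 z1 with h | h
    · exact h.symm
    · exfalso
      rw [h] at h3
      have : dt (-e.1) z = -dt e.1 z := by unfold dt; simp; ring
      linarith
  · rcases par_eq he.1.2.1 hf.1.2.1 z2 with h | h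
    · exact h.symm
    · exfalso
      rw [h] at h4
      have : dt z (-e.2) = -dt z e.2 := by unfold dt; simp; ring
      linarith

/-! ### Angles -/

/-- the factor in the formula for the determinant -/
noncomputable def kf (t c : ℤ) : ℝ := 2 / Real.sqrt (4 * c - t ^ 2)

lemma kf_pos : 0 < kf t c := by
  unfold kf
  have h := disc_pos (t := t) (c := c) hD01
  exact div_pos (by norm_num) (Real.sqrt_pos.2 h)

lemma kf_le : kf t c ≤ 2 := by
  unfold kf
  have h := three_le_disc (t := t) (c := c) hD01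
  have h1 : (1 : ℝ) ≤ Real.sqrt (4 * c - t ^ 2) := by
    rw [show (1 : ℝ) = Real.sqrt 1 by simp]
    exact Real.sqrt_le_sqrt (by linarith)
  rw [div_le_iff₀ (by linarith)]
  linarith

/-- the determinant in terms of the angles -/
lemma dt_sin {v u : Qd t c} (hv : v ≠ 0) (hu : u ≠ 0) :
    (dt v u : ℝ) =
      kf t c * (Real.sqrt (nm v) * Real.sqrt (nm u) * Real.sin (ang u - ang v)) := by
  have hs : 0 < Real.sqrt (4 * (c : ℝ) - (t : ℝ) ^ 2) := Real.sqrt_pos.2 (disc_pos hD01)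
  have key : ∀ z : Qd t c, z ≠ 0 →
      (z.re : ℝ) + t * z.im / 2 = Real.sqrt (nm z) * Real.cos (ang z) ∧
      (z.im : ℝ) * Real.sqrt (4 * c - t ^ 2) / 2 = Real.sqrt (nm z) * Real.sin (ang z) := by
    intro z hz
    rw [← norm_tc hD01]
    unfold ang
    rw [Complex.norm_mul_cos_arg, Complex.norm_mul_sin_arg, tc_re, tc_im]
    exact ⟨rfl, rfl⟩
  obtain ⟨a1, a2⟩ := key v hv
  obtain ⟨b1, b2⟩ := key u hu
  have e1 : (dt v u : ℝ) * (Real.sqrt (4 * c - t ^ 2) / 2) =
      Real.sqrt (nm v) * Real.sqrt (nm u) * Real.sin (ang u - ang v) := by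
    have e2 : (dt v u : ℝ) * (Real.sqrt (4 * c - t ^ 2) / 2) =
        ((v.re : ℝ) + t * v.im / 2) * ((u.im : ℝ) * Real.sqrt (4 * c - t ^ 2) / 2) -
        ((v.im : ℝ) * Real.sqrt (4 * c - t ^ 2) / 2) * ((u.re : ℝ) + t * u.im / 2) := by
      unfold dt
      push_cast
      ring
    rw [e2, a1, a2, b1, b2, Real.sin_sub]
    ring
  rw [← e1]
  unfold kf
  field_simp

end

lemma sin_lip (x y : ℝ) : Real.sin x - Real.sin y ≤ |x - y| := by
  rw [Real.sin_sub_sin]
  have h1 : |Real.sin ((x - y) / 2)| ≤ |(x - y) / 2| := Real.abs_sin_le_abs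
  have h2 := Real.abs_cos_le_one ((x + y) / 2)
  have h3 : |2 * Real.sin ((x - y) / 2) * Real.cos ((x + y) / 2)| ≤ |x - y| := by
    rw [abs_mul, abs_mul, abs_of_pos (by norm_num : (0 : ℝ) < 2)]
    calc 2 * |Real.sin ((x - y) / 2)| * |Real.cos ((x + y) / 2)|
        ≤ 2 * |(x - y) / 2| * 1 := by gcongr
      _ = |x - y| := by
        rw [abs_div, abs_of_pos (by norm_num : (0 : ℝ) < 2)]
        ring
  exact (le_abs_self _).trans h3

lemma aix_close {n : ℕ} (hn : 1 ≤ n) {z z' : Qd t c} (h : aix n z = aix n z') :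
    |ang z - ang z'| ≤ 2 * Real.pi / n := by
  have hn' : (0 : ℝ) < n := by exact_mod_cast hn
  have hpi := Real.pi_pos
  unfold aix at h
  have h1 := Int.abs_sub_lt_one_of_floor_eq_floor h
  have h2 : (ang z + Real.pi) * n / (2 * Real.pi) - (ang z' + Real.pi) * n / (2 * Real.pi) =
      (ang z - ang z') * (n / (2 * Real.pi)) := by
    field_simp
    ring
  rw [h2, abs_mul, abs_of_pos (by positivity : 0 < (n : ℝ) / (2 * Real.pi))] at h1
  rw [le_div_iff₀ hn']
  have h3 : |ang z - ang z'| * n < 2 * Real.pi := by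
    have := mul_lt_mul_of_pos_right h1 (by positivity : 0 < 2 * Real.pi)
    calc |ang z - ang z'| * n = |ang z - ang z'| * (n / (2 * Real.pi)) * (2 * Real.pi) := by
          field_simp
      _ < 1 * (2 * Real.pi) := this
      _ = _ := one_mul _
  exact h3.le

lemma aix_range {n : ℕ} (z : Qd t c) : ∃ j ∈ range (n + 1), aix n z = (j : ℤ) := by
  have hpi := Real.pi_pos
  have h1 : -Real.pi < ang z := Complex.neg_pi_lt_arg _
  have h2 : ang z ≤ Real.pi := Complex.arg_le_pi _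
  have h3 : 0 ≤ aix n z := by
    unfold aix
    apply Int.floor_nonneg.2
    have : 0 ≤ ang z + Real.pi := by linarith
    positivity
  have h4 : aix n z ≤ n := by
    unfold aix
    have : (ang z + Real.pi) * n / (2 * Real.pi) ≤ n := by
      rw [div_le_iff₀ (by positivity)]
      have hn' : (0 : ℝ) ≤ n := by positivity
      nlinarith
    have h5 := Int.floor_le_floor this
    rwa [Int.floor_natCast] at h5
  refine ⟨(aix n z).toNat, ?_, ?_⟩
  · rw [mem_range]; omega
  · rw [Int.toNat_of_nonneg h3]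

section
variable [Fact (t ^ 2 < 4 * c)]

/-- the trace form of the two vectors of an edge is positive -/
lemma pp_edge (HF : Fd t c f χ) {Y : ℝ} (hY3 : (f : ℝ) ≤ Y) {e : Qd t c × Qd t c}
    (he : e ∈ edge t c Y) : 0 ≤ pp e.1 e.2 := by
  rw [mem_edge] at he
  obtain ⟨⟨⟨pa, ha⟩, pb, hb⟩, hab, hY⟩ := he
  have h1 := pp_dt e.1 e.2
  have h2 := nm_addp e.1 e.2
  rw [hab] at h1
  have h3 : (nm e.1 : ℝ) < nm (e.1 + e.2) := lt_of_le_of_lt ha hY
  have h4 : (nm e.2 : ℝ) < nm (e.1 + e.2) := lt_of_le_of_lt hb hY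
  have h5 : (nm e.1 : ℤ) < nm (e.1 + e.2) := by exact_mod_cast h3
  have h6 : (nm e.2 : ℤ) < nm (e.1 + e.2) := by exact_mod_cast h4
  have h7 : (f : ℝ) < nm (e.1 + e.2) := lt_of_le_of_lt hY3 hY
  have h8 : (f : ℤ) < nm (e.1 + e.2) := by exact_mod_cast h7
  have hdisc := HF.disc
  have h3f : (3 : ℤ) ≤ (f : ℤ) := by exact_mod_cast HF.three
  have hA : (1 : ℤ) ≤ nm e.1 := by exact_mod_cast nm_pos hD01 (prim_ne_zero pa)
  have hB : (1 : ℤ) ≤ nm e.2 := by exact_mod_cast nm_pos hD01 (prim_ne_zero pb)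
  by_contra hc
  push Not at hc
  rw [h2] at h5 h6 h8
  generalize hA' : (nm e.1 : ℤ) = A at *
  generalize hB' : (nm e.2 : ℤ) = B at *
  generalize hq' : pp e.1 e.2 = q at *
  have k1 : -q < A := by linarith
  have k2 : -q < B := by linarith
  have k3 : q ^ 2 ≤ A * B := by nlinarith
  have k4 : 3 * (A * B) ≤ f := by nlinarith
  have k5 : A + B - 1 ≤ A * B := by nlinarith
  linarith

lemma pp_comb (a b : Qd t c) (x y x' y' : ℤ) :
    pp ((x : Qd t c) * a + (y : Qd t c) * b) ((x' : Qd t c) * a + (y' : Qd t c) * b) =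
      2 * x * x' * nm a + (x * y' + y * x') * pp a b + 2 * y * y' * nm b := by
  rw [nm_cast hD01, nm_cast hD01, pp_eq, pp_eq]
  simp only [QuadraticAlgebra.re_add, QuadraticAlgebra.im_add, QuadraticAlgebra.re_mul,
      QuadraticAlgebra.im_mul, QuadraticAlgebra.re_intCast, QuadraticAlgebra.im_intCast, Int.cast_id]
  ring

/-- vectors of the same cone have positive inner product -/
lemma pp_cone (HF : Fd t c f χ) {Y X : ℝ} (hY3 : (f : ℝ) ≤ Y) {e : Qd t c × Qd t c}
    (he : e ∈ edge t c Y) {w₁ w₂ : Qd t c}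
    (h1 : w₁ ∈ cone X e.1 e.2) (h2 : w₂ ∈ cone X e.1 e.2) : 0 < pp w₁ w₂ := by
  have h3 := pp_edge HF hY3 he
  rw [mem_edge] at he
  obtain ⟨⟨⟨pa, ha⟩, pb, hb⟩, hab, hY⟩ := he
  rw [mem_cone] at h1 h2
  have e1 : w₁ = ((dt w₁ e.2 : ℤ) : Qd t c) * e.1 + ((dt e.1 w₁ : ℤ) : Qd t c) * e.2 := by
    obtain ⟨d1, d2⟩ := decomp hab w₁
    apply QuadraticAlgebra.ext
    · simpa using d1
    · simpa using d2
  have e2 : w₂ = ((dt w₂ e.2 : ℤ) : Qd t c) * e.1 + ((dt e.1 w₂ : ℤ) : Qd t c) * e.2 := by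
    obtain ⟨d1, d2⟩ := decomp hab w₂
    apply QuadraticAlgebra.ext
    · simpa using d1
    · simpa using d2
  rw [e1, e2, pp_comb]
  have hA : 0 < (nm e.1 : ℤ) := by exact_mod_cast nm_pos hD01 (prim_ne_zero pa)
  obtain ⟨-, x1, y1⟩ := h1
  obtain ⟨-, x2, y2⟩ := h2
  have t1 : 0 < 2 * dt w₁ e.2 * dt w₂ e.2 * (nm e.1 : ℤ) := by positivity
  have t2 : 0 ≤ (dt w₁ e.2 * dt e.1 w₂ + dt e.1 w₁ * dt w₂ e.2) * pp e.1 e.2 := by positivity
  have t3 : 0 ≤ 2 * dt e.1 w₁ * dt e.1 w₂ * (nm e.2 : ℤ) := by positivity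
  linarith

lemma card_ball {Y : ℝ} (hY : 1 ≤ Y) : ((ball t c Y).card : ℝ) ≤ 25 * Y := by
  classical
  set r : ℕ := ⌊2 * Real.sqrt Y⌋₊ with hr
  have h1 : (ball t c Y).card ≤ (Icc (-(r : ℤ)) r ×ˢ Icc (-(r : ℤ)) r).card := by
    apply card_le_card_of_injOn (fun z : Qd t c => (2 * z.re + t * z.im, z.im))
    · intro z hz
      rw [mem_coe, mem_ball hD01] at hz
      have h3 := four_nm z
      have h4 := nm_cast hD01 z
      rw [← h4] at h3
      have h5 := three_le_disc (t := t) (c := c) hD01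
      have h6 : (4 : ℝ) * (nm z : ℝ) = (2 * z.re + t * z.im : ℝ) ^ 2 +
          (4 * c - t ^ 2) * (z.im : ℝ) ^ 2 := by exact_mod_cast h3
      have h7 : (4 : ℝ) * (nm z : ℝ) ≤ 4 * Y := by linarith [hz.2]
      have h8 : (0 : ℝ) ≤ (z.im : ℝ) ^ 2 := sq_nonneg _
      have h9 : (2 * z.re + t * z.im : ℝ) ^ 2 ≤ 4 * Y := by nlinarith
      have h10 : (z.im : ℝ) ^ 2 ≤ 4 * Y := by
        nlinarith [sq_nonneg (2 * z.re + t * z.im : ℝ)]
      have key : ∀ x : ℤ, (x : ℝ) ^ 2 ≤ 4 * Y → -(r : ℤ) ≤ x ∧ x ≤ r := by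
        intro x hx
        have k3 : |(x : ℝ)| ≤ 2 * Real.sqrt Y := by
          have : Real.sqrt (4 * Y) = 2 * Real.sqrt Y := by
            rw [Real.sqrt_mul (by norm_num), show (4 : ℝ) = 2 ^ 2 by norm_num,
              Real.sqrt_sq (by norm_num)]
          rw [← this]
          exact Real.abs_le_sqrt hx
        have k4 : ((x.natAbs : ℕ) : ℝ) ≤ 2 * Real.sqrt Y := by
          rw [Nat.cast_natAbs]
          push_cast
          exact k3
        have k5 : x.natAbs ≤ r := Nat.le_floor k4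
        omega
      rw [mem_coe, mem_product, mem_Icc, mem_Icc]
      refine ⟨key _ ?_, key _ h10⟩
      push_cast
      exact h9
    · intro z hz z' hz' h
      simp only [Prod.mk.injEq] at h
      have e2 := h.2
      have e1 : z.re = z'.re := by
        have := h.1
        rw [e2] at this
        linarith
      exact QuadraticAlgebra.ext e1 e2
  rw [card_product, Int.card_Icc] at h1
  have h2 : ((r : ℤ) + 1 - -(r : ℤ)).toNat = 2 * r + 1 := by omega
  rw [h2] at h1
  have h3 : ((ball t c Y).card : ℝ) ≤ (2 * r + 1) * (2 * r + 1) := by exact_mod_cast h1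
  have h4 : (r : ℝ) ≤ 2 * Real.sqrt Y := Nat.floor_le (by positivity)
  have h5 : 1 ≤ Real.sqrt Y := by
    rw [show (1 : ℝ) = Real.sqrt 1 by simp]
    exact Real.sqrt_le_sqrt hY
  have h6 := Real.sq_sqrt (by linarith : 0 ≤ Y)
  have h7 : (0 : ℝ) ≤ r := by positivity
  nlinarith

end

end Pool.Agent.W372.EG
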